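import Pool.Agent.N190.GS2.Defs
import Pool.Agent.H447R3.SpDefs

/-!
# The sign conjecture for hyperplane sections of products: definitions
-/

set_option autoImplicit false

open CategoryTheory AlgebraicGeometry

universe u v

namespace Pool.Agent.N190.GS3

open Pool.Agent.H914 Pool.Agent.H447 Pool.Agent.N190.CB Pool.Agent.N190.GS2 VarClass Obj
  WeilCohomology

variable {k : Type u} [Field k] {𝒱 : VarClass k} {ops : CycleOps 𝒱}

/-- The sign conjecture holds for the generic hyperplane sections `Z` of `X × Q`, for the sum of the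
divisors `D` and `h`, and for all their specializations `Z₀`, for all varieties `Q` with a divisor
`h` which satisfies hard Lefschetz and the conjecture B. -/
def SignForSections (W : WeilCohomology.{u, v} ops) {X : 𝒱.Obj} (D : X.Cycles) : Prop :=
  ∀ (Q : 𝒱.Obj) (h : Q.Cycles), Q.IsCyc 1 h → HardLefschetz W Q h → LefschetzB W Q h →
    ∀ (T : Theory.{u, v}) (Z : T.𝒱.Obj),
      GenericSection W T.W (V := X.prod Q) (TH720.LB.sumDiv ops D h) Z →
        SignStd T.W Z ∧ ∀ (T₀ : Theory.{u, v}) (Z₀ : T₀.𝒱.Obj),
          Specialization T.W T₀.W Z Z₀ → SignStd T₀.W Z₀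

end Pool.Agent.N190.GS3
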