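import Pool.Agent.N190.GS3.Defs
import Pool.Agent.N190.GS2.Main

/-!
# The sign conjecture for hyperplane sections of products
-/

set_option autoImplicit false

open CategoryTheory AlgebraicGeometry Finset

universe u v

namespace Pool.Agent.N190.GS3

open Pool.Agent.H914 Pool.Agent.H447 Pool.Agent.N190.CB Pool.Agent.TH720.LB
  Pool.Agent.W534 Pool.Agent.N190.GS Pool.Agent.N190.GS2 VarClass Obj WeilCohomology

variable {k : Type u} [Field k] {𝒱 : VarClass k} {ops : CycleOps 𝒱}
  {k' : Type u} [Field k'] {𝒱' : VarClass k'} {ops' : CycleOps 𝒱'}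
  {W : WeilCohomology.{u, v} ops} {W' : WeilCohomology.{u, v} ops'} {V X Q : 𝒱.Obj} {Z : 𝒱'.Obj}

lemma rop_mem {T : Module.End W.K (W.H V)} (hT : ROp W V 0 T) {i : ℕ} {x : W.H V}
    (hx : x ∈ W.gr V i) : T x ∈ W.gr V i := by
  have h2 := rop_opAlg.hom hT _ _ (by rw [grZ_natCast]; exact hx)
  rwa [mul_zero, add_zero, grZ_natCast] at h2

/-- One left inverse for finitely many degrees. -/
lemma exists_uniform {L : Module.End W.K (W.H V)} (hL : ROp W V 1 L) (s : ℕ)
    (hT : ∀ i < s, ∃ T, ROp W V (-1) T ∧ ∀ x ∈ W.gr V i, T (L x) = x) :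
    ∃ T, ROp W V (-1) T ∧ ∀ i < s, ∀ x ∈ W.gr V i, T (L x) = x := by
  induction s with
  | zero => exact ⟨0, rop_opAlg.zero _, fun i hi => absurd hi (Nat.not_lt_zero i)⟩
  | succ s ih =>
    obtain ⟨T₁, h1, h1'⟩ := ih fun i hi => hT i (by omega)
    obtain ⟨T₂, h2, h2'⟩ := hT s (by omega)
    have h2L : ROp W V 0 (T₂ * L) := rop_opAlg.cast (rop_opAlg.mul h2 hL) (by ring)
    refine ⟨T₁ + T₂ - T₁ * (L * T₂), rop_opAlg.sub (rop_opAlg.add h1 h2)
      (rop_opAlg.cast (rop_opAlg.mul h1 (rop_opAlg.mul hL h2)) (by ring)), fun i hi x hx => ?_⟩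
    rw [LinearMap.sub_apply, LinearMap.add_apply, Module.End.mul_apply, Module.End.mul_apply]
    have ha : T₂ (L x) ∈ W.gr V i := rop_mem h2L hx
    rcases Nat.lt_or_ge i s with his | his
    · rw [h1' i his x hx, h1' i his _ ha, add_sub_cancel_right]
    · obtain rfl : i = s := by omega
      rw [h2' x hx, add_sub_cancel_left]

/-- Adjoints of rational correspondences. -/
lemma rop_adj {d : ℤ} {T : Module.End W.K (W.H V)} (hT : ROp W V d T) :
    ∃ T', ROp W V d T' ∧ ∀ a b, W.tr V (T a * b) = W.tr V (a * T' b) := by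
  rcases rop_iff.1 hT with ⟨p, hp, z, hz, rfl⟩ | ⟨-, rfl⟩
  · refine ⟨W.corr (W.cl _ (ops.pull (swap V V) z)), rop_corr hp (ops.pull_mem _ hz),
      fun a b => ?_⟩
    rw [W.cl_pull]
    exact tr_corr_swap (W.cl_mem hz) a b
  · exact ⟨0, rop_opAlg.zero _, fun a b => by simp⟩

/-- **A quasi-inverse of the Lefschetz operator** from left inverses in the degrees below the
middle. -/
theorem exists_quasi {D : V.Cycles} (hD : V.IsCyc 1 D)
    (hT : ∀ i, i + 1 < V.dim → ∃ T, ROp W V (-1) T ∧ ∀ x ∈ W.gr V i, T (W.cl V D * x) = x) :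
    ∃ S, ROp W V (-1) S ∧ ∀ i, i + 1 ≠ V.dim → ∀ x ∈ W.gr V i,
      W.cl V D * S (W.cl V D * x) = W.cl V D * x := by
  have hξ : W.cl V D ∈ W.gr V (2 * 1) := W.cl_mem hD
  set L := LinearMap.mulLeft W.K (W.cl V D) with hL
  have hLop : ROp W V 1 L := rop_mulLeft hD
  obtain ⟨T, hTR, hTL⟩ := exists_uniform hLop (V.dim - 1) fun i hi => hT i (by omega)
  obtain ⟨T', hT'R, hadj⟩ := rop_adj hTR
  -- the right inverse
  have hright : ∀ i, i + 1 < V.dim → ∀ w ∈ W.gr V (2 * V.dim - i), L (T' w) = w := by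
    intro i hi w hw
    rw [← sub_eq_zero]
    apply nondeg_right
    intro a
    rw [mul_sub, map_sub, sub_eq_zero]
    have e1 : W.tr V (a * L (T' w)) = W.tr V (T (L a) * w) := by
      rw [hadj, hL, LinearMap.mulLeft_apply, LinearMap.mulLeft_apply, ← mul_assoc,
        ← W.even_comm hξ]
    rw [e1]
    refine gr_induction (W.isInternal V) (p := fun a => W.tr V (T (L a) * w) =
      W.tr V (a * w)) ?_ ?_ a
    · intro l a ha
      by_cases hl : l = i
      · rw [hTL l (by omega) a ha]
      · have h1 : T (L a) ∈ W.gr V l :=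
          rop_mem (rop_opAlg.cast (rop_opAlg.mul hTR hLop) (by ring)) ha
        rw [W.tr_eq_zero (W.mul_mem h1 hw) (by omega), W.tr_eq_zero (W.mul_mem ha hw) (by omega)]
    · intro a b ha hb
      rw [map_add, map_add, add_mul, map_add, ha, hb, add_mul, map_add]
  refine ⟨T + T' - T * (L * T'), rop_opAlg.sub (rop_opAlg.add hTR hT'R)
    (rop_opAlg.cast (rop_opAlg.mul hTR (rop_opAlg.mul hLop hT'R)) (by ring)), fun i hi x hx => ?_⟩
  change L ((T + T' - T * (L * T')) (L x)) = L x
  rw [LinearMap.sub_apply, LinearMap.add_apply, Module.End.mul_apply, Module.End.mul_apply,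
    map_sub, map_add]
  rcases Nat.lt_or_ge (i + 1) V.dim with h1 | h1
  · have hy : T' (L x) ∈ W.gr V i :=
      rop_mem (rop_opAlg.cast (rop_opAlg.mul hT'R hLop) (by ring)) hx
    rw [hTL i (by omega) x hx, hTL i (by omega) _ hy, add_sub_cancel_right]
  · have hLx : L x ∈ W.gr V (2 * 1 + i) := W.mul_mem hξ hx
    have h2 : L (T' (L x)) = L x := by
      by_cases h3 : i + 2 ≤ 2 * V.dim
      · obtain ⟨l, hl⟩ := Nat.exists_eq_add_of_le h3
        exact hright l (by omega) _ (by rwa [show 2 * V.dim - l = 2 * 1 + i by omega])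
      · rw [W.gr_eq_bot V _ (by omega)] at hLx
        rw [(Submodule.mem_bot _).1 hLx, map_zero, map_zero]
    rw [h2, add_sub_cancel_left]

/-- The parity operator of a product. -/
lemma rop_par_prod (hX : ROp W X 0 (par (W.isInternal X))) (hQ : ROp W Q 0 (par (W.isInternal Q))) :
    ROp W (X.prod Q) 0 (par (W.isInternal (X.prod Q))) := by
  have e : par (W.isInternal (X.prod Q)) =
      extOp W (par (W.isInternal X)) (par (W.isInternal Q)) := by
    apply LinearMap.ext
    intro z
    refine W.kunneth_induction (p := fun z => par (W.isInternal (X.prod Q)) z =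
      extOp W (par (W.isInternal X)) (par (W.isInternal Q)) z) ?_ ?_ z
    · intro a b ha hb
      rw [map_add, map_add, ha, hb]
    intro i j a ha b hb
    rw [extOp_tmul, par, par, par, scal_apply _ _ ha, scal_apply _ _ hb,
      scal_apply _ _ (W.mul_mem (W.map_mem _ ha) (W.map_mem _ hb)), map_smul, map_smul,
      smul_mul_smul_comm, ← pow_add]
  rw [e]
  exact rop_opAlg.cast (rop_ext hX hQ) (by ring)

/-- The sign conjecture from the algebraicity of the projector of one parity. -/
lemma sign_of_rop {n : ℕ} {P : Module.End W.K (W.H V)} (hP : ROp W V 0 P)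
    (hPj : ∀ j, ∀ a ∈ W.gr V j, P a = if (Even j ↔ Even n) then a else 0) : SignStd W V := by
  by_cases hn : Even n
  · obtain ⟨z, hz, hzP⟩ := exists_of_rop (p := V.dim) (by simp) hP
    refine ⟨z, hz, fun j a ha => ?_⟩
    rw [hzP, hPj j a ha]
    by_cases hj : Even j
    · rw [if_pos ⟨fun _ => hn, fun _ => hj⟩, if_pos hj]
    · rw [if_neg (fun h => hj (h.2 hn)), if_neg hj]
  · obtain ⟨z, hz, hzP⟩ := exists_of_rop (p := V.dim) (by simp) (rop_opAlg.sub rop_opAlg.one hP)
    refine ⟨z, hz, fun j a ha => ?_⟩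
    rw [hzP, LinearMap.sub_apply, Module.End.one_apply, hPj j a ha]
    by_cases hj : Even j
    · rw [if_neg (fun h => hn (h.1 hj)), if_pos hj, sub_zero]
    · rw [if_pos ⟨fun h => absurd h hj, fun h => absurd h hn⟩, if_neg hj, sub_self]

/-- **The sign conjecture for the generic hyperplane section** from a quasi-inverse. -/
theorem sign_of_quasi {D : V.Cycles} (hD : V.IsCyc 1 D) (hS : ROp W V 0 (par (W.isInternal V)))
    (G : GenericSection W W' D Z) {S : Module.End W.K (W.H V)} (hSR : ROp W V (-1) S)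
    (hSL : ∀ i, i + 1 ≠ V.dim → ∀ x ∈ W.gr V i,
      W.cl V D * S (W.cl V D * x) = W.cl V D * x) : SignStd W' Z := by
  have hdim := G.dim
  set P : Module.End W.K (W.H V) := ((1 / 2 : ℚ) : W.K) • (1 + (((-1) ^ V.dim : ℚ) : W.K) •
    par (W.isInternal V)) with hP
  have hPR : ROp W V 0 P := rop_opAlg.smul _ (rop_opAlg.add rop_opAlg.one (rop_opAlg.smul _ hS))
  have hPj : ∀ j, ∀ a ∈ W.gr V j, P a = if (Even j ↔ Even V.dim) then a else 0 := by
    intro j a ha
    rw [hP, LinearMap.smul_apply, LinearMap.add_apply, Module.End.one_apply,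
      LinearMap.smul_apply, par, scal_apply _ _ ha, smul_smul]
    have e2 : ((((-1) ^ V.dim : ℚ) : W.K) * (-1) ^ j) = if (Even j ↔ Even V.dim) then 1 else -1 := by
      push_cast
      rw [← pow_add]
      by_cases h1 : (Even j ↔ Even V.dim)
      · rw [if_pos h1, Even.neg_one_pow (by rw [Nat.even_add]; exact h1.symm)]
      · rw [if_neg h1, Odd.neg_one_pow (by
          rw [← Nat.not_even_iff_odd, Nat.even_add]
          exact fun h => h1 h.symm)]
    rw [e2]
    split_ifs
    · rw [one_smul, ← two_smul W.K a, smul_smul]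
      push_cast
      norm_num
    · rw [neg_smul, one_smul, add_neg_cancel, smul_zero]
  have hSm : ∀ {i : ℕ} {x : W.H V}, x ∈ W.gr V i → S (W.cl V D * x) ∈ W.gr V i := by
    intro i x hx
    exact rop_mem (rop_opAlg.cast (rop_opAlg.mul hSR (rop_mulLeft hD)) (by ring)) hx
  obtain ⟨y, hy, hyS⟩ := exists_of_rop (p := Z.dim) (by rw [G.dim]; push_cast; ring)
    (rop_opAlg.mul hPR hSR)
  obtain ⟨z, hz, hzy⟩ := G.restrict y hy
  refine sign_of_rop (n := V.dim) (P := W'.corr (W'.cl _ z)) (rop_corr (by simp) hz) ?_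
  have key : W'.corr (W'.cl _ z) = scal (W'.isInternal Z)
      (fun j => if (Even j ↔ Even V.dim) then 1 else 0) := by
    have h1 : ∀ x : W.H V, W'.corr (W'.cl _ z) (G.res x) = scal (W'.isInternal Z)
        (fun j => if (Even j ↔ Even V.dim) then 1 else 0) (G.res x) := by
      intro x
      refine gr_induction (W.isInternal V) (p := fun x => W'.corr (W'.cl _ z) (G.res x) =
        scal (W'.isInternal Z) (fun j => if (Even j ↔ Even V.dim) then 1 else 0) (G.res x)) ?_ ?_ x
      · intro j x hx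
        rw [hzy, corr_res G hD, hyS, Module.End.mul_apply, hPj j _ (hSm hx),
          scal_apply _ _ (G.res_mem j x hx)]
        split_ifs with hj
        · rw [one_smul, ← sub_eq_zero, ← map_sub]
          apply res_eq_zero G
          rw [mul_sub, sub_eq_zero]
          refine hSL j (fun h => ?_) x hx
          rw [← h, Nat.even_add_one] at hj
          tauto
        · rw [zero_smul, map_zero]
      · intro a b ha hb
        rw [map_add, map_add, map_add, ha, hb]
    apply LinearMap.ext
    intro b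
    obtain ⟨r, hr, v, hvm, hv, rfl⟩ := G.span b
    have h2 : W'.corr (W'.cl _ z) r = scal (W'.isInternal Z)
        (fun j => if (Even j ↔ Even V.dim) then 1 else 0) r := by
      induction hr using Submodule.span_induction with
      | mem x hx =>
        obtain ⟨x, rfl⟩ := hx
        exact h1 x
      | zero => rw [map_zero, map_zero]
      | add x y _ _ hx hy => rw [map_add, map_add, hx, hy]
      | smul c x _ hx => rw [map_smul, map_smul, hx]
    rw [map_add, map_add, h2, hzy, corr_vanishing G hvm hv, scal_apply _ _ hvm, if_neg, zero_smul]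
    rw [G.dim, Nat.even_add_one]
    tauto
  intro j a ha
  rw [key, scal_apply _ _ ha]
  split_ifs
  · rw [one_smul]
  · rw [zero_smul]

section One

variable {D : X.Cycles} {h : Q.Cycles}

/-- Left inverses on `X × Q` from left inverses on `X`. -/
lemma exists_left_of_below (hD : X.IsCyc 1 D) (hI : GS2.InvertsBelow W D)
    (hh : Q.IsCyc 1 h) (hQL : HardLefschetz W Q h) (hQB : LefschetzB W Q h) {i : ℕ}
    (hi : i + 1 < X.dim + Q.dim) : ∃ T, ROp W (X.prod Q) (-1) T ∧ ∀ z ∈ W.gr (X.prod Q) i,
      T (W.cl _ (sumDiv ops D h) * z) = z := by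
  refine exists_left_prod hD hh hQL hQB fun j _ => ?_
  by_cases hij : Q.dim + j ≤ i
  · obtain ⟨l, hl⟩ := Nat.exists_eq_add_of_le hij
    obtain ⟨T, ⟨z, hz, rfl⟩, hT⟩ := hI l (by omega)
    obtain ⟨c, hc⟩ := Nat.exists_eq_add_of_le (show j + 1 ≤ X.dim - 1 - l by omega)
    have hLop : ROp W X 1 (LinearMap.mulLeft W.K (W.cl X D)) := rop_mulLeft hD
    refine ⟨W.corr (W.cl _ z) * LinearMap.mulLeft W.K (W.cl X D) ^ c,
      rop_opAlg.cast (rop_opAlg.mul (rop_corr (p := l + 1)
        (d := -((X.dim : ℤ) - 1 - l)) (by push_cast; ring) hz) (rop_opAlg.pow hLop c))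
        (by omega), fun _ a ha => ?_⟩
    rw [show i - (Q.dim + j) = l by omega] at ha
    rw [Module.End.mul_apply, ← Module.End.mul_apply (_ ^ c), ← pow_add, add_comm c, ← hc,
      CB.mulLeft_pow_apply, hT a ha]
  · exact ⟨0, rop_opAlg.zero _, fun h' => absurd h' hij⟩

/-- **The sign conjecture for the generic hyperplane sections of `X × Q`.** -/
theorem sign_of_inverts (hD : X.IsCyc 1 D) (hS : SignStd W X) (hI : GS2.InvertsBelow W D)
    (hh : Q.IsCyc 1 h) (hQL : HardLefschetz W Q h) (hQB : LefschetzB W Q h)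
    (G : GenericSection W W' (V := X.prod Q) (sumDiv ops D h) Z) : SignStd W' Z := by
  obtain ⟨R, hRop, hR⟩ := lefschetzB_iff_rop.1 hQB
  have hQS : SignStd W Q := sign_of_kunneth fun s =>
    rop_opAlg.proj_mem (W.isInternal Q) W_hbd (rop_mulLeft hh) hQL hRop hR s
  obtain ⟨S, hSR, hSL⟩ := exists_quasi (W := W) (V := X.prod Q) (isCyc_sumDiv' hD hh)
    fun i hi => exists_left_of_below hD hI hh hQL hQB (by rwa [dim_prod] at hi)
  exact sign_of_quasi (isCyc_sumDiv' hD hh)
    (rop_par_prod (par_rop_of_sign hS) (par_rop_of_sign hQS)) G hSR hSL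

end One

/-- **The sign conjecture is stable under specialization.** -/
theorem sign_specialize {Z : 𝒱.Obj} {Z₀ : 𝒱'.Obj} (S : Specialization W W' Z Z₀)
    (hS : SignStd W Z) : SignStd W' Z₀ := by
  obtain ⟨P, hP, hPe⟩ := hS
  obtain ⟨z, hz, hzP⟩ := S.cycles ⟨P, hP, rfl⟩
  have key : W'.corr (W'.cl _ z) = evenProj (W'.isInternal Z₀) := by
    apply LinearMap.ext
    intro b
    have hb : b ∈ Submodule.span W'.K (Set.range S.sp) := by
      rw [S.spanning.span]
      exact Submodule.mem_top
    induction hb using Submodule.span_induction with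
    | mem x hx =>
      obtain ⟨x, rfl⟩ := hx
      refine gr_induction (W.isInternal Z) (p := fun x => W'.corr (W'.cl _ z) (S.sp x) =
        evenProj (W'.isInternal Z₀) (S.sp x)) ?_ ?_ x
      · intro j x hx
        rw [hzP, corr_sp, hPe j x hx, evenProj, scal_apply _ _ (S.spanning.mem j x hx)]
        split_ifs
        · rw [one_smul]
        · rw [map_zero, zero_smul]
      · intro a b ha hb
        rw [map_add, map_add, map_add, ha, hb]
    | zero => rw [map_zero, map_zero]
    | add x y _ _ hx hy => rw [map_add, map_add, hx, hy]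
    | smul c x _ hx => rw [map_smul, map_smul, hx]
  refine ⟨z, hz, fun j a ha => ?_⟩
  rw [key, evenProj, scal_apply _ _ ha]
  split_ifs
  · rw [one_smul]
  · rw [zero_smul]

section Final

variable {D : X.Cycles}

/-- **One section decides.** -/
theorem one_section_sign (hD : X.IsCyc 1 D) (hS : SignStd W X) (S : GS2.TestSection W D) :
    List.TFAE [SignStd S.T.W S.Z, GS2.InvertsBelow W D, SignForSections W D] := by
  tfae_have 1 → 2 := fun h => invertsBelow_of_sign hD S.old h
  tfae_have 2 → 3 := fun hI Q h hh hQL hQB T Z G => by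
    have h1 := sign_of_inverts hD hS hI hh hQL hQB G
    exact ⟨h1, fun _ _ S' => sign_specialize S' h1⟩
  tfae_have 3 → 1 := fun H => (H S.Q S.h S.div S.hard S.lef _ _ S.G).1
  tfae_finish

/-- **The conjecture B in the degrees `≤ dim X - 2` suffices.** -/
theorem sign_of_inverse (hD : X.IsCyc 1 D) (hHL : HardLefschetz W X D) (hS : SignStd W X)
    (hI : GS2.InverseUpTo W D) : SignForSections W D := by
  intro Q h hh hQL hQB T Z G
  have h1 := sign_of_inverts hD hS (GS.InverseUpTo.below hD hHL (one_ne_zero_of_section G).1 hI)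
    hh hQL hQB G
  exact ⟨h1, fun _ _ S' => sign_specialize S' h1⟩

end Final

end Pool.Agent.N190.GS3
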